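import Pool.Agent.Q319.VE.Ultra
import Mathlib.Computability.DFA

set_option autoImplicit false

/-!
# `(ℤ, +, X)` for the set `X` of the integers of even `k`-adic order: undefinability, instability,
recognizability
-/

namespace Pool.Agent.Q319.VE

open Filter FirstOrder FirstOrder.Language

/-! ### undefinability -/

/-- The automorphism of the ultrapower as an automorphism of structures. -/
theorem exists_lequiv {k : ℕ} (hk : 2 ≤ k) :
    letI := strX (Xk k)
    ∃ g : P ≃[LX] P, (∀ z : ℤ, g (mk fun _ => z) = mk fun _ => z) ∧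
      g (mk fun n => (k : ℤ) ^ n) = mk fun n => (k : ℤ) ^ n - scale k n := by
  let _ := strX (Xk k)
  obtain ⟨s, h1, h2, h3⟩ := exists_aut hk
  refine ⟨{ toEquiv := s.toEquiv
            map_fun' := ?_
            map_rel' := ?_ }, h1, h2⟩
  · intro n f x
    cases f with
    | add =>
      have key : ∀ y : Fin 2 → P, Structure.funMap (L := LX) (M := P) AddFn.add y = y 0 + y 1 := by
        intro y
        choose w hw using fun i => mk_surj (y i)
        have hy : y = fun i => mk (w i) := funext hw
        rw [hy]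
        exact Ultraproduct.funMap_cast (M := fun _ : ℕ => ℤ) (u := U) (L := LX) AddFn.add w
      show s (Structure.funMap (L := LX) (M := P) AddFn.add x) =
        Structure.funMap (L := LX) (M := P) AddFn.add (fun i => s (x i))
      rw [key, key, map_add]
  · intro n r x
    cases r with
    | X =>
      have key : ∀ y : Fin 1 → P, ∀ w : ℕ → ℤ, y 0 = mk w →
          (Structure.RelMap (L := LX) (M := P) XRel.X y ↔
            ∀ᶠ n in (U : Filter ℕ), w n ∈ Xk k) := by
        intro y w hw
        have hy : y = fun i => ((fun (_ : Fin 1) => w) i : (U : Filter ℕ).Product fun _ => ℤ) := by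
          funext i
          rw [Subsingleton.elim i 0, hw]
          rfl
        rw [hy]
        exact relMap_quotient_mk' (L := LX)
          (s := (U : Filter ℕ).productSetoid fun _ => ℤ) XRel.X fun (_ : Fin 1) => w
      obtain ⟨f, e, hf, hs, he⟩ := h3 (x 0)
      show Structure.RelMap (L := LX) (M := P) XRel.X (fun i => s (x i)) ↔
        Structure.RelMap (L := LX) (M := P) XRel.X x
      rw [key _ _ hs, key _ _ hf]
      exact aut_rel hk he

/-- The transfer principle for the automorphism. -/
theorem transfer {k : ℕ} (hk : 2 ≤ k) (φ : LX.Formula (ℤ ⊕ Fin 2)) (a b : ℕ → ℤ) (a' b' : ℕ → ℤ)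
    (hab : letI := strX (Xk k)
      ∀ g : P ≃[LX] P, (∀ z : ℤ, g (mk fun _ => z) = mk fun _ => z) →
      g (mk fun n => (k : ℤ) ^ n) = mk (fun n => (k : ℤ) ^ n - scale k n) →
      g (mk a) = mk a' ∧ g (mk b) = mk b')
    (h : letI := strX (Xk k); ∀ n, φ.Realize (Sum.elim id ![a n, b n])) :
    letI := strX (Xk k); ∀ᶠ n in (U : Filter ℕ), φ.Realize (Sum.elim id ![a' n, b' n]) := by
  let _ := strX (Xk k)
  obtain ⟨g, h1, h2⟩ := exists_lequiv hk
  obtain ⟨ha, hb⟩ := hab g h1 h2
  have e1 := Ultraproduct.realize_formula_cast (M := fun _ : ℕ => ℤ) (u := U) φ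
    (Sum.elim (fun z _ => z) ![a, b])
  have e2 := Ultraproduct.realize_formula_cast (M := fun _ : ℕ => ℤ) (u := U) φ
    (Sum.elim (fun z _ => z) ![a', b'])
  have c1 : ∀ (a b : ℕ → ℤ) (n : ℕ), (fun i => Sum.elim (fun (z : ℤ) (_ : ℕ) => z) ![a, b] i n) =
      Sum.elim id ![a n, b n] := by
    intro a b n
    funext i
    rcases i with z | i
    · rfl
    · fin_cases i <;> rfl
  simp only [c1] at e1 e2
  rw [← e2]
  have e3 := StrongHomClass.realize_formula g φ
    (v := fun i => ((Sum.elim (fun (z : ℤ) (_ : ℕ) => z) ![a, b] i : ℕ → ℤ) :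
      (U : Filter ℕ).Product fun _ => ℤ))
  have e4 : (g ∘ fun i => ((Sum.elim (fun (z : ℤ) (_ : ℕ) => z) ![a, b] i : ℕ → ℤ) :
      (U : Filter ℕ).Product fun _ => ℤ)) =
      fun i => ((Sum.elim (fun (z : ℤ) (_ : ℕ) => z) ![a', b'] i : ℕ → ℤ) :
      (U : Filter ℕ).Product fun _ => ℤ) := by
    funext i
    rcases i with z | i
    · exact h1 z
    · fin_cases i
      · exact ha
      · exact hb
  exact (iff_of_eq (congrArg φ.Realize e4)).1 (e3.2 (e1.2 (Eventually.of_forall h)))

end Pool.Agent.Q319.VE
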