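import Mathlib.ModelTheory.Ultraproducts
import Mathlib.ModelTheory.Definability
import Mathlib.Algebra.Category.Grp.Injective
import Mathlib.Order.Filter.Germ.Basic
import Mathlib.Order.Filter.Ultrafilter.Basic
import Mathlib.RingTheory.Multiplicity
import Mathlib.Tactic

set_option autoImplicit false

/-!
# An automorphism of an ultrapower of `(ℤ, +, X)`, where `X` is the set of the integers of even
`k`-adic order
-/

namespace Pool.Agent.Q319.VE

open Filter FirstOrder

/-- the function symbol `+` -/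
inductive AddFn : ℕ → Type
  | add : AddFn 2

/-- a unary predicate symbol -/
inductive XRel : ℕ → Type
  | X : XRel 1

/-- the language of `(ℤ, +, X)` -/
def LX : FirstOrder.Language.{0, 0} := ⟨AddFn, XRel⟩

/-- the structure `(ℤ, +, X)` -/
@[instance_reducible]
def strX (X : Set ℤ) : LX.Structure ℤ where
  funMap := fun {n} f => match n, f with
    | _, AddFn.add => fun v => v 0 + v 1
  RelMap := fun {n} r => match n, r with
    | _, XRel.X => fun v => v 0 ∈ X

/-- The nonzero integers with even `k`-adic order (the exponent of the largest power of `k`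
dividing the integer is even). -/
def Xk (k : ℕ) : Set ℤ := {n | n ≠ 0 ∧ Even (multiplicity (k : ℤ) n)}

theorem mem_Xk {k : ℕ} (hk : 2 ≤ k) (n : ℤ) :
    n ∈ Xk k ↔ ∃ j, (k : ℤ) ^ (2 * j) ∣ n ∧ ¬ (k : ℤ) ^ (2 * j + 1) ∣ n := by
  constructor
  · rintro ⟨h0, j, hj⟩
    refine ⟨j, ?_, ?_⟩
    · have := pow_multiplicity_dvd (k : ℤ) n
      rwa [hj, ← two_mul] at this
    · apply FiniteMultiplicity.not_pow_dvd_of_multiplicity_lt
      · rw [Int.finiteMultiplicity_iff]
        exact ⟨by simp; omega, h0⟩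
      · omega
  · rintro ⟨j, h1, h2⟩
    refine ⟨?_, ?_⟩
    · rintro rfl
      exact h2 (dvd_zero _)
    · rw [multiplicity_eq_of_dvd_of_not_dvd h1 h2]
      exact even_two_mul j

/-- Adding a multiple of `k^m` to an integer not divisible by `k^m`. -/
theorem Xk_add {k : ℕ} (hk : 2 ≤ k) {m : ℕ} {f e : ℤ} (hf : ¬ (k : ℤ) ^ m ∣ f)
    (he : (k : ℤ) ^ m ∣ e) (h : f ∈ Xk k) : f + e ∈ Xk k := by
  rw [mem_Xk hk] at h ⊢
  obtain ⟨j, h1, h2⟩ := h
  have hlt : 2 * j < m := by
    by_contra hcon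
    exact hf ((pow_dvd_pow _ (not_lt.1 hcon)).trans h1)
  have h3 : (k : ℤ) ^ (2 * j) ∣ e := (pow_dvd_pow _ hlt.le).trans he
  have h4 : (k : ℤ) ^ (2 * j + 1) ∣ e := (pow_dvd_pow _ hlt).trans he
  exact ⟨j, dvd_add h1 h3, fun h5 => h2 ((dvd_add_left h4).1 h5)⟩

/-! ### the ultrapower -/

noncomputable section

/-- a nonprincipal ultrafilter -/
abbrev U : Ultrafilter ℕ := hyperfilter ℕ

/-- the ultrapower of `ℤ` -/
abbrev P : Type := (U : Filter ℕ).Product (fun _ => ℤ)

instance instP : AddCommGroup P := inferInstanceAs (AddCommGroup ((U : Filter ℕ).Germ ℤ))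

/-- the class of a sequence -/
def mk (f : ℕ → ℤ) : P := ((f : ∀ _ : ℕ, ℤ) : (U : Filter ℕ).Product fun _ => ℤ)

theorem mk_add (f g : ℕ → ℤ) : mk f + mk g = mk fun n => f n + g n := rfl

theorem mk_eq {f g : ℕ → ℤ} : mk f = mk g ↔ ∀ᶠ n in (U : Filter ℕ), f n = g n := Quotient.eq''

theorem mk_surj (y : P) : ∃ f, y = mk f := by
  induction y using Quotient.inductionOn' with
  | h f => exact ⟨f, rfl⟩

/-- `mk` as a homomorphism -/
def mkHom : (ℕ → ℤ) →+ P where
  toFun := mk
  map_zero' := rfl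
  map_add' _ _ := rfl

theorem mk_zsmul (z : ℤ) (f : ℕ → ℤ) : z • mk f = mk fun n => z * f n := by
  have h := map_zsmul mkHom z f
  have h2 : z • f = fun n => z * f n := by
    funext n
    simp
  rw [h2] at h
  exact h.symm

theorem ev_ge (N : ℕ) : ∀ᶠ n in (U : Filter ℕ), N ≤ n :=
  Nat.hyperfilter_le_atTop (eventually_ge_atTop N)

/-- the multiplicity scale: `k^(2n) n!` -/
def scale (k n : ℕ) : ℤ := (k : ℤ) ^ (2 * n) * (n.factorial : ℤ)

theorem scale_mul_rat (k : ℕ) (r : ℚ) {n : ℕ} (hn : r.den ≤ n) :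
    ∃ z : ℤ, (z : ℚ) = r * n.factorial ∧ ⌊r * (scale k n : ℚ)⌋ = (k : ℤ) ^ (2 * n) * z := by
  obtain ⟨c, hc⟩ := Nat.dvd_factorial r.pos hn
  have h1 : ((r.num * c : ℤ) : ℚ) = r * n.factorial := by
    rw [hc]
    push_cast
    have : (r.den : ℚ) ≠ 0 := by exact_mod_cast r.pos.ne'
    nth_rewrite 2 [← Rat.num_div_den r]
    field_simp
  refine ⟨r.num * c, h1, ?_⟩
  have h2 : r * (scale k n : ℚ) = (((k : ℤ) ^ (2 * n) * (r.num * c) : ℤ) : ℚ) := by
    unfold scale
    push_cast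
    have h3 : ((r.num : ℚ) * c) = r * n.factorial := by exact_mod_cast h1
    rw [h3]
    ring
  rw [h2, Int.floor_intCast]

/-- `r ↦ r · [k^(2n) n!]` -/
def ratMul (k : ℕ) : ℚ →+ P where
  toFun r := mk fun n => ⌊r * (scale k n : ℚ)⌋
  map_zero' := by
    have : (fun n => ⌊(0 : ℚ) * (scale k n : ℚ)⌋) = fun _ => (0 : ℤ) := by
      funext n
      simp
    rw [this]
    rfl
  map_add' r s := by
    rw [mk_add, mk_eq]
    filter_upwards [ev_ge (max (r + s).den (max r.den s.den))] with n hn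
    obtain ⟨z, hz, hz'⟩ := scale_mul_rat k (r + s) (n := n) (by omega)
    obtain ⟨x, hx, hx'⟩ := scale_mul_rat k r (n := n) (by omega)
    obtain ⟨y, hy, hy'⟩ := scale_mul_rat k s (n := n) (by omega)
    rw [hz', hx', hy']
    have : z = x + y := by
      have : (z : ℚ) = ((x + y : ℤ) : ℚ) := by
        push_cast
        rw [hz, hx, hy]
        ring
      exact_mod_cast this
    rw [this]
    ring

theorem ratMul_apply (k : ℕ) (r : ℚ) : ratMul k r = mk fun n => ⌊r * (scale k n : ℚ)⌋ := rfl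

/-- the subgroup of the classes of sequences divisible by `k^(2n)` -/
def Bk (k : ℕ) : AddSubgroup P where
  carrier := {y | ∀ f, y = mk f → ∀ᶠ n in (U : Filter ℕ), (k : ℤ) ^ (2 * n) ∣ f n}
  zero_mem' := by
    intro f hf
    have : mk (fun _ => 0) = mk f := hf
    rw [mk_eq] at this
    filter_upwards [this] with n hn
    rw [← hn]
    exact dvd_zero _
  add_mem' := by
    intro a b ha hb f hf
    obtain ⟨g, rfl⟩ := mk_surj a
    obtain ⟨h, rfl⟩ := mk_surj b
    rw [mk_add, mk_eq] at hf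
    filter_upwards [ha g rfl, hb h rfl, hf] with n h1 h2 h3
    rw [← h3]
    exact dvd_add h1 h2
  neg_mem' := by
    intro a ha f hf
    have h1 := ha (fun n => - f n) (by
      have : a = - mk f := by rw [← hf, neg_neg]
      rw [this]
      rfl)
    filter_upwards [h1] with n hn
    exact (dvd_neg.1 hn)

theorem mem_Bk {k : ℕ} (f : ℕ → ℤ) :
    mk f ∈ Bk k ↔ ∀ᶠ n in (U : Filter ℕ), (k : ℤ) ^ (2 * n) ∣ f n := by
  constructor
  · intro h
    exact h f rfl
  · intro h g hg
    rw [mk_eq] at hg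
    filter_upwards [h, hg] with n h1 h2
    rwa [← h2]

theorem ratMul_mem (k : ℕ) (r : ℚ) : ratMul k r ∈ Bk k := by
  rw [ratMul_apply, mem_Bk]
  filter_upwards [ev_ge r.den] with n hn
  obtain ⟨z, -, hz⟩ := scale_mul_rat k r hn
  exact ⟨z, hz⟩

/-- the standard integers as a subgroup -/
def std : ℤ →+ P where
  toFun z := mk fun _ => z
  map_zero' := rfl
  map_add' _ _ := rfl

/-- There is a homomorphism to `ℚ` which vanishes at the standard integers and on `Bk k` and is
`-1` at the class of `k^n`. -/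
theorem exists_hom {k : ℕ} (hk : 2 ≤ k) : ∃ l : P →+ ℚ, (∀ z, l (std z) = 0) ∧
    (∀ y ∈ Bk k, l y = 0) ∧ l (mk fun n => (k : ℤ) ^ n) = -1 := by
  set x : P := mk fun n => (k : ℤ) ^ n with hx
  set N : AddSubgroup P := (AddMonoidHom.range std) ⊔ Bk k with hN
  -- `x` has infinite order modulo `N`
  have hinf : ∀ z : ℤ, z • x ∈ N → z = 0 := by
    intro z hz
    by_contra hz0
    rw [hN, AddSubgroup.mem_sup] at hz
    obtain ⟨_, ⟨c, rfl⟩, b, hb, hcb⟩ := hz
    obtain ⟨g, rfl⟩ := mk_surj b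
    rw [mem_Bk] at hb
    have h1 : (std c : P) + mk g = mk fun n => c + g n := rfl
    rw [h1, hx, mk_zsmul, mk_eq] at hcb
    obtain ⟨n, hn1, hn2, hn3⟩ := (hb.and (hcb.and (ev_ge (c.natAbs + z.natAbs + 1)))).exists
    have hlt : ∀ m : ℕ, (m : ℤ) < (k : ℤ) ^ m := by
      intro m
      have : m < k ^ m := Nat.lt_pow_self (by omega)
      exact_mod_cast this
    have hd : (k : ℤ) ^ n ∣ c := by
      have h2 : (k : ℤ) ^ n ∣ g n := (pow_dvd_pow _ (by omega)).trans hn1
      have h3 : (k : ℤ) ^ n ∣ z * (k : ℤ) ^ n := dvd_mul_left _ _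
      rw [← hn2] at h3
      exact (dvd_add_left h2).1 h3
    have hc0 : c = 0 := by
      apply Int.eq_zero_of_abs_lt_dvd hd
      have := hlt n
      have h4 : |c| = (c.natAbs : ℤ) := Int.abs_eq_natAbs c
      rw [h4]
      omega
    rw [hc0, zero_add] at hn2
    rw [hn2, two_mul, pow_add] at hn1
    have h5 : (k : ℤ) ^ n ∣ z := by
      have hpos : (k : ℤ) ^ n ≠ 0 := by positivity
      exact (mul_dvd_mul_iff_right hpos).1 hn1
    apply hz0
    apply Int.eq_zero_of_abs_lt_dvd h5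
    have := hlt n
    have h4 : |z| = (z.natAbs : ℤ) := Int.abs_eq_natAbs z
    rw [h4]
    omega
  have hb : Module.Baer ℤ ℚ := Module.Baer.of_divisible ℚ
  let f : ℤ →+ P ⧸ N := (QuotientAddGroup.mk' N).comp (zmultiplesHom P x)
  have hf : Function.Injective f := by
    rw [injective_iff_map_eq_zero]
    intro z hz
    apply hinf z
    have h1 : (QuotientAddGroup.mk' N) (z • x) = 0 := hz
    rwa [QuotientAddGroup.mk'_apply, QuotientAddGroup.eq_zero_iff] at h1
  obtain ⟨h, hh⟩ := hb.extension_property_addMonoidHom f hf (zmultiplesHom ℚ (-1))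
  have hker : ∀ y ∈ N, h (QuotientAddGroup.mk' N y) = 0 := by
    intro y hy
    have : QuotientAddGroup.mk' N y = 0 := (QuotientAddGroup.eq_zero_iff y).2 hy
    rw [this, map_zero]
  refine ⟨h.comp (QuotientAddGroup.mk' N), ?_, ?_, ?_⟩
  · intro z
    exact hker _ (hN ▸ AddSubgroup.mem_sup_left ⟨z, rfl⟩)
  · intro y hy
    exact hker _ (hN ▸ AddSubgroup.mem_sup_right hy)
  · have h1 := DFunLike.congr_fun hh 1
    have h2 : f 1 = QuotientAddGroup.mk' N x := by
      show QuotientAddGroup.mk' N ((1 : ℤ) • x) = _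
      rw [one_zsmul]
    rw [AddMonoidHom.comp_apply, h2] at h1
    rw [AddMonoidHom.comp_apply, h1]
    simp

/-- The automorphism. -/
theorem exists_aut {k : ℕ} (hk : 2 ≤ k) : ∃ s : P ≃+ P, (∀ z, s (std z) = std z) ∧
    (s (mk fun n => (k : ℤ) ^ n) = mk fun n => (k : ℤ) ^ n - scale k n) ∧
    ∀ y, ∃ f e : ℕ → ℤ, y = mk f ∧ s y = mk (fun n => f n + e n) ∧
      ((∀ n, e n = 0) ∨ ∀ᶠ n in (U : Filter ℕ), ¬ (k : ℤ) ^ (2 * n) ∣ f n ∧
        (k : ℤ) ^ (2 * n) ∣ e n) := by
  obtain ⟨l, h1, h2, h3⟩ := exists_hom hk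
  have hl : ∀ r, l (ratMul k r) = 0 := fun r => h2 _ (ratMul_mem k r)
  refine ⟨{ toFun := fun y => y + ratMul k (l y)
            invFun := fun y => y - ratMul k (l y)
            left_inv := ?_
            right_inv := ?_
            map_add' := ?_ }, ?_, ?_, ?_⟩
  · intro y
    simp only [map_add, hl, add_zero, add_sub_cancel_right]
  · intro y
    simp only [map_sub, hl, sub_zero, sub_add_cancel]
  · intro y z
    simp only [map_add]
    abel
  · intro z
    show std z + ratMul k (l (std z)) = std z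
    rw [h1, map_zero, add_zero]
  · show mk (fun n => (k : ℤ) ^ n) + ratMul k (l (mk fun n => (k : ℤ) ^ n)) = _
    rw [h3, ratMul_apply, mk_add, mk_eq]
    filter_upwards with n
    have : (-1 : ℚ) * (scale k n : ℚ) = ((- scale k n : ℤ) : ℚ) := by push_cast; ring
    rw [this, Int.floor_intCast]
    ring
  · intro y
    show ∃ f e : ℕ → ℤ, y = mk f ∧ y + ratMul k (l y) = mk (fun n => f n + e n) ∧ _
    obtain ⟨f, rfl⟩ := mk_surj y
    by_cases hy : mk f ∈ Bk k
    · refine ⟨f, fun _ => 0, rfl, ?_, Or.inl fun _ => rfl⟩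
      rw [h2 _ hy, map_zero, add_zero]
      congr 1
      funext n
      rw [add_zero]
    · refine ⟨f, fun n => ⌊l (mk f) * (scale k n : ℚ)⌋, rfl, rfl, Or.inr ?_⟩
      rw [mem_Bk, ← Ultrafilter.eventually_not] at hy
      have h4 := (mem_Bk _).1 (ratMul_mem k (l (mk f)))
      filter_upwards [hy, h4] with n h5 h6
      exact ⟨h5, h6⟩

/-- The automorphism as an automorphism of the ultrapower of the structure `(ℤ, +, X)`. -/
theorem aut_rel {k : ℕ} (hk : 2 ≤ k) {f e : ℕ → ℤ}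
    (h : (∀ n, e n = 0) ∨ ∀ᶠ n in (U : Filter ℕ), ¬ (k : ℤ) ^ (2 * n) ∣ f n ∧
        (k : ℤ) ^ (2 * n) ∣ e n) :
    (∀ᶠ n in (U : Filter ℕ), f n + e n ∈ Xk k) ↔ ∀ᶠ n in (U : Filter ℕ), f n ∈ Xk k := by
  rcases h with h | h
  · simp only [h, add_zero]
  · have key : ∀ᶠ n in (U : Filter ℕ), (f n + e n ∈ Xk k ↔ f n ∈ Xk k) := by
      filter_upwards [h] with n hn
      constructor
      · intro h1
        have h2 : ¬ (k : ℤ) ^ (2 * n) ∣ f n + e n := fun h3 => hn.1 ((dvd_add_left hn.2).1 h3)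
        have h4 := Xk_add hk h2 ((dvd_neg (α := ℤ)).2 hn.2) h1
        rwa [add_neg_cancel_right] at h4
      · exact Xk_add hk hn.1 hn.2
    exact eventually_congr key

end

end Pool.Agent.Q319.VE
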